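import Mathlib

set_option autoImplicit false

/-!
# An element of `𝒢(D)` that is contained in no flame

Vertices: `r`; resources `x j`; `y' k → y k` with `x j → y' k` for all `j, k`; `z' j → z j` with
`x j → z' j` only; a vertex `v` with in-neighbours all `y k` and all `z j`; and, for every set
`S ⊆ ℕ` with infinite complement, a vertex `w S` with in-neighbours all `y k`, the `z j` with
`j ∈ S`, and `v`.
-/

namespace Pool.Agent.Results.MP_6e5fe0_co.NoFlameAbove

universe u v

/-- Rooted digraphs with vertex set `V` and edge set `E` (parallel edges are allowed). -/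
structure RootedDigraph (V : Type u) (E : Type v) where
  src : E → V
  tgt : E → V
  root : V
  loopless : ∀ e, src e ≠ tgt e
  no_in : ∀ e, tgt e ≠ root

variable {V : Type u} {E : Type v}

/-- The list `l` of edges is a directed walk from `x` to `y`. -/
def IsWalk (D : RootedDigraph V E) : V → List E → V → Prop
  | x, [], y => x = y
  | x, e :: l, y => D.src e = x ∧ IsWalk D (D.tgt e) l y

/-- The edge set `P` is a (finite, directed) path from the root to `y`. -/
def IsRootPath (D : RootedDigraph V E) (y : V) (P : Set E) : Prop :=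
  ∃ l : List E, IsWalk D D.root l y ∧ (D.root :: l.map D.tgt).Nodup ∧ P = {e | e ∈ l}

/-- `I ∈ 𝒢_{D(F)}(y)`, where `D(F)` is the subdigraph with edge set `F`: `I` consists of edges
entering `y` and is covered by pairwise edge-disjoint paths of `D(F)` from the root to `y`. -/
def IsLinkable (D : RootedDigraph V E) (F : Set E) (y : V) (I : Set E) : Prop :=
  (∀ e ∈ I, D.tgt e = y) ∧ ∃ P : Set (Set E), (∀ p ∈ P, IsRootPath D y p ∧ p ⊆ F) ∧
    P.PairwiseDisjoint id ∧ I ⊆ ⋃₀ P

/-- `I ∈ 𝒢(D(F))`. -/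
def IsInG (D : RootedDigraph V E) (F : Set E) (I : Set E) : Prop :=
  ∃ J : V → Set E, (∀ y, y ≠ D.root → IsLinkable D F y (J y)) ∧
    I = ⋃ y ∈ {y : V | y ≠ D.root}, J y

/-- `F` is a flame of `D`: `F ∈ 𝒢(D(F))`. -/
def IsFlame (D : RootedDigraph V E) (F : Set E) : Prop := IsInG D F F

/-- No closed directed walk with at least one edge. -/
def IsAcyclic (D : RootedDigraph V E) : Prop := ∀ x l, l ≠ [] → ¬ IsWalk D x l x

/-- No backward-infinite directed walk `… → · → ·` (in particular no backward-infinite path). -/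
def NoBackwardInfinite (D : RootedDigraph V E) : Prop :=
  ¬ ∃ e : ℕ → E, ∀ n, D.tgt (e (n + 1)) = D.src (e n)

/-- The sets with infinite complement. -/
abbrev CoInf : Type := {S : Set ℕ // Sᶜ.Infinite}

/-- The vertices of the example. -/
inductive Vx : Type
  | r : Vx
  | x (j : ℕ) : Vx
  | y' (k : ℕ) : Vx
  | z' (j : ℕ) : Vx
  | y (k : ℕ) : Vx
  | z (j : ℕ) : Vx
  | v : Vx
  | w (S : CoInf) : Vx

/-- The edges of the example. -/
inductive Ed : Type
  | rx (j : ℕ) : Ed
  | xy (j k : ℕ) : Ed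
  | xz (j : ℕ) : Ed
  | yy (k : ℕ) : Ed
  | zz (j : ℕ) : Ed
  | yv (k : ℕ) : Ed
  | zv (j : ℕ) : Ed
  | yw (k : ℕ) (S : CoInf) : Ed
  | zw (S : CoInf) (j : S.1) : Ed
  | vw (S : CoInf) : Ed

/-- tails of the edges -/
def Ed.src : Ed → Vx
  | .rx _ => .r
  | .xy j _ => .x j
  | .xz j => .x j
  | .yy k => .y' k
  | .zz j => .z' j
  | .yv k => .y k
  | .zv j => .z j
  | .yw k _ => .y k
  | .zw _ j => .z j
  | .vw _ => .v

/-- heads of the edges -/
def Ed.tgt : Ed → Vx
  | .rx j => .x j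
  | .xy _ k => .y' k
  | .xz j => .z' j
  | .yy k => .y k
  | .zz j => .z j
  | .yv _ => .v
  | .zv _ => .v
  | .yw _ S => .w S
  | .zw S _ => .w S
  | .vw S => .w S

/-- the level of a vertex -/
def Vx.rank : Vx → ℕ
  | .r => 0
  | .x _ => 1
  | .y' _ => 2
  | .z' _ => 2
  | .y _ => 3
  | .z _ => 3
  | .v => 4
  | .w _ => 5

theorem rank_lt (e : Ed) : e.src.rank < e.tgt.rank := by
  cases e <;> simp [Ed.src, Ed.tgt, Vx.rank]

/-- The example. -/
def D₀ : RootedDigraph Vx Ed where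
  src := Ed.src
  tgt := Ed.tgt
  root := .r
  loopless := fun e h => by
    have := rank_lt e
    rw [h] at this
    exact lt_irrefl _ this
  no_in := fun e h => by
    have := rank_lt e
    rw [h] at this
    exact absurd this (Nat.not_lt_zero _)

theorem walk_rank (l : List Ed) : ∀ x y, IsWalk D₀ x l y → x.rank + l.length ≤ y.rank := by
  induction l with
  | nil => rintro x y rfl; simp
  | cons e l ih =>
    rintro x y ⟨rfl, h⟩
    have h1 := ih _ _ h
    have h2 := rank_lt e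
    change e.tgt.rank + l.length ≤ y.rank at h1
    show e.src.rank + (e :: l).length ≤ y.rank
    rw [List.length_cons]
    omega

theorem D₀_acyclic : IsAcyclic D₀ := by
  intro x l hl h
  have h1 := walk_rank l x x h
  have h2 : 0 < l.length := List.length_pos_iff.2 hl
  omega

theorem D₀_noBackward : NoBackwardInfinite D₀ := by
  rintro ⟨e, he⟩
  have h : ∀ n, (e n).src.rank + n ≤ (e 0).src.rank := by
    intro n
    induction n with
    | zero => simp
    | succ n ih =>
      have h1 := rank_lt (e (n + 1))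
      have h2 : (e (n + 1)).tgt = (e n).src := he n
      rw [h2] at h1
      omega
  have := h ((e 0).src.rank + 1)
  omega

theorem walk_to_v {l : List Ed} (h : IsWalk D₀ .r l .v) :
    (∃ j k, l = [.rx j, .xy j k, .yy k, .yv k]) ∨ ∃ j, l = [.rx j, .xz j, .zz j, .zv j] := by
  have hw : ∀ (S : CoInf) (l : List Ed), ¬ IsWalk D₀ (.w S) l .v := by
    intro S l h
    have := walk_rank l _ _ h
    simp only [Vx.rank] at this
    omega
  have hv : ∀ l : List Ed, IsWalk D₀ .v l .v → l = [] := by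
    intro l h
    have := walk_rank l _ _ h
    exact List.length_eq_zero_iff.1 (by omega)
  have hy : ∀ k (l : List Ed), IsWalk D₀ (.y k) l .v → l = [.yv k] := by
    intro k l h
    rcases l with - | ⟨e, l⟩
    · exact absurd h (by simp [IsWalk])
    · obtain ⟨h1, h2⟩ := h
      cases e with
      | yv k' =>
        have : k' = k := by injection h1
        rw [hv l h2, this]
      | yw k' S => exact absurd h2 (hw S l)
      | _ => exact absurd h1 (by simp [D₀, Ed.src])
  have hz : ∀ j (l : List Ed), IsWalk D₀ (.z j) l .v → l = [.zv j] := by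
    intro k l h
    rcases l with - | ⟨e, l⟩
    · exact absurd h (by simp [IsWalk])
    · obtain ⟨h1, h2⟩ := h
      cases e with
      | zv k' =>
        have : k' = k := by injection h1
        rw [hv l h2, this]
      | zw S j => exact absurd h2 (hw S l)
      | _ => exact absurd h1 (by simp [D₀, Ed.src])
  rcases l with - | ⟨e, l⟩
  · exact absurd h (by simp [IsWalk])
  obtain ⟨h1, h2⟩ := h
  cases e with
  | rx j =>
    rcases l with - | ⟨e, l⟩
    · exact absurd h2 (by simp [IsWalk, D₀, Ed.tgt])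
    obtain ⟨h3, h4⟩ := h2
    cases e with
    | xy j' k =>
      have hj : j' = j := by injection h3
      subst hj
      rcases l with - | ⟨e, l⟩
      · exact absurd h4 (by simp [IsWalk, D₀, Ed.tgt])
      obtain ⟨h5, h6⟩ := h4
      cases e with
      | yy k' =>
        have hk : k' = k := by injection h5
        subst hk
        have := hy k' l h6
        subst this
        exact Or.inl ⟨j', k', rfl⟩
      | _ => exact absurd h5 (by simp [D₀, Ed.src, Ed.tgt])
    | xz j' =>
      have hj : j' = j := by injection h3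
      subst hj
      rcases l with - | ⟨e, l⟩
      · exact absurd h4 (by simp [IsWalk, D₀, Ed.tgt])
      obtain ⟨h5, h6⟩ := h4
      cases e with
      | zz k' =>
        have hk : k' = j' := by injection h5
        subst hk
        have := hz k' l h6
        subst this
        exact Or.inr ⟨k', rfl⟩
      | _ => exact absurd h5 (by simp [D₀, Ed.src, Ed.tgt])
    | _ => exact absurd h3 (by simp [D₀, Ed.src, Ed.tgt])
  | _ => exact absurd h1 (by simp [D₀, Ed.src])

theorem walk_to_w {S : CoInf} {l : List Ed} (h : IsWalk D₀ .r l (.w S)) :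
    (∃ j k, l = [.rx j, .xy j k, .yy k, .yw k S]) ∨
    (∃ j : S.1, l = [.rx j.1, .xz j.1, .zz j.1, .zw S j]) ∨
    (∃ j k, l = [.rx j, .xy j k, .yy k, .yv k, .vw S]) ∨
    ∃ j, l = [.rx j, .xz j, .zz j, .zv j, .vw S] := by
  have hw : ∀ (S' : CoInf) (l : List Ed), IsWalk D₀ (.w S') l (.w S) → l = [] ∧ S' = S := by
    intro S' l h
    have h1 := walk_rank l _ _ h
    have h2 : l = [] := List.length_eq_zero_iff.1 (by simp only [Vx.rank] at h1; omega)
    subst h2
    refine ⟨rfl, ?_⟩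
    have h3 : Vx.w S' = Vx.w S := h
    injection h3
  have hv : ∀ l : List Ed, IsWalk D₀ .v l (.w S) → l = [.vw S] := by
    intro l h
    rcases l with - | ⟨e, l⟩
    · exact absurd h (by simp [IsWalk])
    · obtain ⟨h1, h2⟩ := h
      cases e with
      | vw S' =>
        obtain ⟨h3, h4⟩ := hw S' l h2
        rw [h3, h4]
      | _ => exact absurd h1 (by simp [D₀, Ed.src])
  have hy : ∀ k (l : List Ed), IsWalk D₀ (.y k) l (.w S) → l = [.yw k S] ∨ l = [.yv k, .vw S] := by
    intro k l h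
    rcases l with - | ⟨e, l⟩
    · exact absurd h (by simp [IsWalk])
    · obtain ⟨h1, h2⟩ := h
      cases e with
      | yv k' =>
        have : k' = k := by injection h1
        rw [hv l h2, this]
        exact Or.inr rfl
      | yw k' S' =>
        have : k' = k := by injection h1
        obtain ⟨h3, h4⟩ := hw S' l h2
        rw [h3, h4, this]
        exact Or.inl rfl
      | _ => exact absurd h1 (by simp [D₀, Ed.src])
  have hz : ∀ j (l : List Ed), IsWalk D₀ (.z j) l (.w S) →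
      (∃ j' : S.1, j'.1 = j ∧ l = [.zw S j']) ∨ l = [.zv j, .vw S] := by
    intro k l h
    rcases l with - | ⟨e, l⟩
    · exact absurd h (by simp [IsWalk])
    · obtain ⟨h1, h2⟩ := h
      cases e with
      | zv k' =>
        have : k' = k := by injection h1
        rw [hv l h2, this]
        exact Or.inr rfl
      | zw S' j =>
        have : j.1 = k := by injection h1
        obtain ⟨h3, h4⟩ := hw S' l h2
        subst h4
        exact Or.inl ⟨j, this, by rw [h3]⟩
      | _ => exact absurd h1 (by simp [D₀, Ed.src])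
  rcases l with - | ⟨e, l⟩
  · exact absurd h (by simp [IsWalk])
  obtain ⟨h1, h2⟩ := h
  cases e with
  | rx j =>
    rcases l with - | ⟨e, l⟩
    · exact absurd h2 (by simp [IsWalk, D₀, Ed.tgt])
    obtain ⟨h3, h4⟩ := h2
    cases e with
    | xy j' k =>
      have hj : j' = j := by injection h3
      subst hj
      rcases l with - | ⟨e, l⟩
      · exact absurd h4 (by simp [IsWalk, D₀, Ed.tgt])
      obtain ⟨h5, h6⟩ := h4
      cases e with
      | yy k' =>
        have hk : k' = k := by injection h5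
        subst hk
        rcases hy k' l h6 with h7 | h7
        · subst h7
          exact Or.inl ⟨j', k', rfl⟩
        · subst h7
          exact Or.inr (Or.inr (Or.inl ⟨j', k', rfl⟩))
      | _ => exact absurd h5 (by simp [D₀, Ed.src, Ed.tgt])
    | xz j' =>
      have hj : j' = j := by injection h3
      subst hj
      rcases l with - | ⟨e, l⟩
      · exact absurd h4 (by simp [IsWalk, D₀, Ed.tgt])
      obtain ⟨h5, h6⟩ := h4
      cases e with
      | zz k' =>
        have hk : k' = j' := by injection h5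
        subst hk
        rcases hz k' l h6 with ⟨j, h7, h8⟩ | h7
        · subst h7
          subst h8
          exact Or.inr (Or.inl ⟨j, rfl⟩)
        · subst h7
          exact Or.inr (Or.inr (Or.inr ⟨k', rfl⟩))
      | _ => exact absurd h5 (by simp [D₀, Ed.src, Ed.tgt])
    | _ => exact absurd h3 (by simp [D₀, Ed.src, Ed.tgt])
  | _ => exact absurd h1 (by simp [D₀, Ed.src])

/-- The element of `𝒢(D₀)`: all the edges `y k → v` and all edges entering the `w S`. -/
def I₀ : Set Ed := {e | (∃ k, e = .yv k) ∨ ∃ S, e.tgt = .w S}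

/-- The part of `I₀` entering a given vertex. -/
def J₀ (y : Vx) : Set Ed := {e | e ∈ I₀ ∧ e.tgt = y}

theorem J₀_v : J₀ .v = Set.range Ed.yv := by
  ext e
  constructor
  · rintro ⟨⟨k, rfl⟩ | ⟨S, hS⟩, he⟩
    · exact ⟨k, rfl⟩
    · rw [hS] at he
      exact absurd he (by simp)
  · rintro ⟨k, rfl⟩
    exact ⟨Or.inl ⟨k, rfl⟩, rfl⟩

theorem link_v : IsLinkable D₀ Set.univ .v (J₀ .v) := by
  refine ⟨fun e he => he.2, Set.range fun k : ℕ =>
    {e | e ∈ [Ed.rx k, .xy k k, .yy k, .yv k]}, ?_, ?_, ?_⟩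
  · rintro _ ⟨k, rfl⟩
    refine ⟨⟨[.rx k, .xy k k, .yy k, .yv k], ?_, ?_, rfl⟩, Set.subset_univ _⟩
    · simp [IsWalk, D₀, Ed.src, Ed.tgt]
    · simp [D₀, Ed.tgt]
  · rintro _ ⟨k, rfl⟩ _ ⟨l, rfl⟩ hkl
    have hne : k ≠ l := fun h => hkl (by rw [h])
    refine Set.disjoint_left.2 fun e he he' => ?_
    simp only [id, Set.mem_ofPred_eq, List.mem_cons, List.not_mem_nil, or_false] at he he'
    rcases he with rfl | rfl | rfl | rfl <;> simp_all
  · rw [J₀_v]
    rintro _ ⟨k, rfl⟩
    exact ⟨_, ⟨k, rfl⟩, by simp⟩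

/-- paths to `w S` through `y k` -/
def pA (S : CoInf) (j k : ℕ) : Set Ed := {e | e ∈ [Ed.rx j, .xy j k, .yy k, .yw k S]}

/-- paths to `w S` through `z j` -/
def pB (S : CoInf) (j : S.1) : Set Ed := {e | e ∈ [Ed.rx j.1, .xz j.1, .zz j.1, .zw S j]}

/-- paths to `w S` through `z i` and `v` -/
def pC (S : CoInf) (i : ℕ) : Set Ed := {e | e ∈ [Ed.rx i, .xz i, .zz i, .zv i, .vw S]}

theorem mem_pA {S : CoInf} {j k : ℕ} {e : Ed} :
    e ∈ pA S j k ↔ e = .rx j ∨ e = .xy j k ∨ e = .yy k ∨ e = .yw k S := by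
  simp [pA]

theorem mem_pB {S : CoInf} {j : S.1} {e : Ed} :
    e ∈ pB S j ↔ e = .rx j.1 ∨ e = .xz j.1 ∨ e = .zz j.1 ∨ e = .zw S j := by
  simp [pB]

theorem mem_pC {S : CoInf} {i : ℕ} {e : Ed} :
    e ∈ pC S i ↔ e = .rx i ∨ e = .xz i ∨ e = .zz i ∨ e = .zv i ∨ e = .vw S := by
  simp [pC]

theorem disj_AB (S : CoInf) (j k : ℕ) (i : S.1) (h : j ≠ i.1) : Disjoint (pA S j k) (pB S i) := by
  refine Set.disjoint_left.2 fun e he he' => ?_
  rw [mem_pA] at he
  rw [mem_pB] at he'
  rcases he with rfl | rfl | rfl | rfl <;> simp at he'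
  exact h he'

theorem disj_AC (S : CoInf) (j k i : ℕ) (h : j ≠ i) : Disjoint (pA S j k) (pC S i) := by
  refine Set.disjoint_left.2 fun e he he' => ?_
  rw [mem_pA] at he
  rw [mem_pC] at he'
  rcases he with rfl | rfl | rfl | rfl <;> simp at he'
  exact h he'

theorem disj_BC (S : CoInf) (j : S.1) (i : ℕ) (h : j.1 ≠ i) : Disjoint (pB S j) (pC S i) := by
  refine Set.disjoint_left.2 fun e he he' => ?_
  rw [mem_pB] at he
  rw [mem_pC] at he'
  rcases he with rfl | rfl | rfl | rfl <;> simp at he' <;> exact h he'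

theorem disj_AA (S : CoInf) (j k j' k' : ℕ) (h : j ≠ j') (h' : k ≠ k') :
    Disjoint (pA S j k) (pA S j' k') := by
  refine Set.disjoint_left.2 fun e he he' => ?_
  rw [mem_pA] at he
  rw [mem_pA] at he'
  rcases he with rfl | rfl | rfl | rfl <;> simp at he'
  · exact h he'
  · exact h he'.1
  · exact h' he'
  · exact h' he'

theorem disj_BB (S : CoInf) (j j' : S.1) (h : j ≠ j') : Disjoint (pB S j) (pB S j') := by
  refine Set.disjoint_left.2 fun e he he' => ?_
  rw [mem_pB] at he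
  rw [mem_pB] at he'
  have h2 : j.1 ≠ j'.1 := fun h3 => h (Subtype.ext h3)
  rcases he with rfl | rfl | rfl | rfl
  · simp only [Ed.rx.injEq, reduceCtorEq, or_false] at he'
    exact h2 he'
  · simp only [Ed.xz.injEq, reduceCtorEq, or_false, false_or] at he'
    exact h2 he'
  · simp only [Ed.zz.injEq, reduceCtorEq, or_false, false_or] at he'
    exact h2 he'
  · simp only [reduceCtorEq, false_or] at he'
    injection he' with h3 h4
    exact h h4

theorem link_w (S : CoInf) : IsLinkable D₀ Set.univ (.w S) (J₀ (.w S)) := by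
  obtain ⟨i, hi⟩ := S.2.nonempty
  have hinf : (S.1ᶜ \ {i}).Infinite := S.2.sdiff (Set.finite_singleton i)
  obtain ⟨σ⟩ : Nonempty (ℕ ↪ ↥(S.1ᶜ \ {i})) := ⟨hinf.natEmbedding⟩
  have hσ1 : ∀ k, (σ k).1 ∉ S.1 := fun k => (σ k).2.1
  have hσ2 : ∀ k, (σ k).1 ≠ i := fun k => (σ k).2.2
  have hσ3 : ∀ k l, (σ k).1 = (σ l).1 → k = l := fun k l h => σ.injective (Subtype.ext h)
  refine ⟨fun e he => he.2,
    (Set.range fun k => pA S (σ k).1 k) ∪ (Set.range (pB S) ∪ {pC S i}), ?_, ?_, ?_⟩
  · rintro _ (⟨k, rfl⟩ | ⟨j, rfl⟩ | rfl)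
    · refine ⟨⟨[Ed.rx (σ k).1, .xy (σ k).1 k, .yy k, .yw k S], ?_, ?_, rfl⟩, Set.subset_univ _⟩
      · simp [IsWalk, D₀, Ed.src, Ed.tgt]
      · simp [D₀, Ed.tgt]
    · refine ⟨⟨[Ed.rx j.1, .xz j.1, .zz j.1, .zw S j], ?_, ?_, rfl⟩, Set.subset_univ _⟩
      · simp [IsWalk, D₀, Ed.src, Ed.tgt]
      · simp [D₀, Ed.tgt]
    · refine ⟨⟨[Ed.rx i, .xz i, .zz i, .zv i, .vw S], ?_, ?_, rfl⟩, Set.subset_univ _⟩
      · simp [IsWalk, D₀, Ed.src, Ed.tgt]
      · simp [D₀, Ed.tgt]
  · rintro _ (⟨k, rfl⟩ | ⟨j, rfl⟩ | rfl) _ (⟨k', rfl⟩ | ⟨j', rfl⟩ | rfl) hne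
    · have hkk : k ≠ k' := fun h => hne (by rw [h])
      exact disj_AA S _ _ _ _ (fun h => hkk (hσ3 _ _ h)) hkk
    · exact disj_AB S (σ k).1 k j' fun h => hσ1 k (h ▸ j'.2)
    · exact disj_AC S _ _ _ (hσ2 k)
    · exact (disj_AB S (σ k').1 k' j fun h => hσ1 k' (h ▸ j.2)).symm
    · exact disj_BB S j j' fun h => hne (by rw [h])
    · exact disj_BC S j i fun h => hi (h ▸ j.2)
    · exact (disj_AC S _ _ _ (hσ2 k')).symm
    · exact (disj_BC S j' i fun h => hi (h ▸ j'.2)).symm
    · exact absurd rfl hne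
  · rintro e ⟨-, he⟩
    cases e with
    | yw k S' =>
      have : S' = S := by injection he
      subst this
      exact ⟨_, Or.inl ⟨k, rfl⟩, mem_pA.2 (by simp)⟩
    | zw S' j =>
      have : S' = S := by injection he
      subst this
      exact ⟨_, Or.inr (Or.inl ⟨j, rfl⟩), mem_pB.2 (by simp)⟩
    | vw S' =>
      have : S' = S := by injection he
      subst this
      exact ⟨_, Or.inr (Or.inr rfl), mem_pC.2 (by simp)⟩
    | _ => exact absurd he (by simp [Ed.tgt])

theorem I₀_mem : IsInG D₀ Set.univ I₀ := by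
  refine ⟨J₀, ?_, ?_⟩
  · intro y _
    have h0 : (∀ e ∈ I₀, e.tgt ≠ y) → IsLinkable D₀ Set.univ y (J₀ y) := by
      intro h
      refine ⟨fun e he => he.2, ∅, by simp, by simp, ?_⟩
      rintro e ⟨h1, h2⟩
      exact absurd h2 (h e h1)
    cases y with
    | v => exact link_v
    | w S => exact link_w S
    | _ =>
      refine h0 ?_
      rintro e (⟨k, rfl⟩ | ⟨S, hS⟩)
      · simp [Ed.tgt]
      · rw [hS]
        simp
  · ext e
    simp only [Set.mem_iUnion, Set.mem_ofPred_eq]
    constructor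
    · intro he
      refine ⟨e.tgt, D₀.no_in e, he, rfl⟩
    · rintro ⟨y, _, h⟩
      exact h.1

/-- A flame restricts to a linkable set at every vertex. -/
theorem flame_at {V : Type u} {E : Type v} {D : RootedDigraph V E} {F : Set E}
    (hF : IsFlame D F) (y : V) (hy : y ≠ D.root) :
    ∃ P : Set (Set E), (∀ p ∈ P, IsRootPath D y p ∧ p ⊆ F) ∧ P.PairwiseDisjoint id ∧
      ∀ e ∈ F, D.tgt e = y → ∃ p ∈ P, e ∈ p := by
  obtain ⟨J, hJ, hU⟩ := hF
  obtain ⟨-, P, h1, h2, h3⟩ := hJ y hy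
  refine ⟨P, h1, h2, fun e he hey => ?_⟩
  have h4 : e ∈ ⋃ y ∈ {y : V | y ≠ D.root}, J y := hU ▸ he
  simp only [Set.mem_iUnion, Set.mem_ofPred_eq] at h4
  obtain ⟨y', hy', h5⟩ := h4
  have h6 : D.tgt e = y' := (hJ y' hy').1 e h5
  have h7 : y' = y := h6.symm.trans hey
  subst h7
  exact h3 h5

theorem no_flame : ¬ ∃ F, IsFlame D₀ F ∧ I₀ ⊆ F := by
  rintro ⟨F, hF, hI⟩
  -- the vertex `v`
  obtain ⟨P, hP, hPd, hPc⟩ := flame_at hF Vx.v (by simp [D₀])
  have hyv : ∀ k, ∃ j, ∃ p ∈ P, p = {e | e ∈ [Ed.rx j, .xy j k, .yy k, .yv k]} := by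
    intro k
    obtain ⟨p, hp, hkp⟩ := hPc (.yv k) (hI (Or.inl ⟨k, rfl⟩)) rfl
    obtain ⟨⟨l, hl, -, rfl⟩, -⟩ := hP p hp
    rcases walk_to_v hl with ⟨j, k', rfl⟩ | ⟨j, rfl⟩
    · have : k = k' := by simpa using hkp
      subst this
      exact ⟨j, _, hp, rfl⟩
    · exact absurd hkp (by simp)
  choose s p hpP hps using hyv
  have hzv : ∀ j, Ed.zv j ∈ F → ∃ q ∈ P, q = {e | e ∈ [Ed.rx j, .xz j, .zz j, .zv j]} := by
    intro j hj
    obtain ⟨q, hq, hkq⟩ := hPc (.zv j) hj rfl
    obtain ⟨⟨l, hl, -, rfl⟩, -⟩ := hP q hq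
    rcases walk_to_v hl with ⟨j', k', rfl⟩ | ⟨j', rfl⟩
    · exact absurd hkq (by simp)
    · have : j = j' := by simpa using hkq
      subst this
      exact ⟨_, hq, rfl⟩
  -- `s` is injective
  have hs1 : Function.Injective s := by
    intro k k' hkk
    have h1 : Ed.rx (s k) ∈ p k := by rw [hps k]; simp
    have h2 : Ed.rx (s k) ∈ p k' := by rw [hps k', hkk]; simp
    have h3 : p k = p k' := by
      by_contra hne
      exact Set.disjoint_left.1 (hPd (hpP k) (hpP k') hne) h1 h2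
    have h4 : Ed.yv k ∈ p k' := by rw [← h3, hps k]; simp
    rw [hps k'] at h4
    simpa using h4
  -- `s` avoids the indices of the edges `z j → v` of `F`
  have hs2 : ∀ k, Ed.zv (s k) ∉ F := by
    intro k hk
    obtain ⟨q, hq, hqe⟩ := hzv _ hk
    have h1 : Ed.rx (s k) ∈ p k := by rw [hps k]; simp
    have h2 : Ed.rx (s k) ∈ q := by rw [hqe]; simp
    have h3 : p k = q := by
      by_contra hne
      exact Set.disjoint_left.1 (hPd (hpP k) hq hne) h1 h2
    have h4 : Ed.yv k ∈ q := by rw [← h3, hps k]; simp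
    rw [hqe] at h4
    simp at h4
  -- the critical vertex `w S`
  have hinf : ({j | Ed.zv j ∈ F} : Set ℕ)ᶜ.Infinite :=
    (Set.infinite_range_of_injective hs1).mono (by rintro _ ⟨k, rfl⟩; exact hs2 k)
  let S : CoInf := ⟨{j | Ed.zv j ∈ F}, hinf⟩
  obtain ⟨Q, hQ, hQd, hQc⟩ := flame_at hF (Vx.w S) (by simp [D₀])
  obtain ⟨q, hq, hvq⟩ := hQc (.vw S) (hI (Or.inr ⟨S, rfl⟩)) rfl
  obtain ⟨⟨l, hl, -, rfl⟩, hqF⟩ := hQ q hq
  rcases walk_to_w hl with ⟨j, k, rfl⟩ | ⟨j, rfl⟩ | ⟨j, k, rfl⟩ | ⟨j, rfl⟩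
  · exact absurd hvq (by simp)
  · exact absurd hvq (by simp)
  · -- the path through `y k`
    obtain ⟨q', hq', hvq'⟩ := hQc (.yw k S) (hI (Or.inr ⟨S, rfl⟩)) rfl
    have hne : {e | e ∈ [Ed.rx j, .xy j k, .yy k, .yv k, .vw S]} ≠ q' := by
      rintro rfl
      exact absurd hvq' (by simp)
    have hd := Set.disjoint_left.1 (hQd hq hq' hne)
    obtain ⟨⟨l', hl', -, rfl⟩, -⟩ := hQ q' hq'
    have hyy : Ed.yy k ∈ l' := by
      rcases walk_to_w hl' with ⟨j', k', rfl⟩ | ⟨j', rfl⟩ | ⟨j', k', rfl⟩ | ⟨j', rfl⟩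
      · have : k = k' := by simpa using hvq'
        subst this
        simp
      · exact absurd hvq' (by simp)
      · exact absurd hvq' (by simp)
      · exact absurd hvq' (by simp)
    exact hd (show Ed.yy k ∈ _ by simp) hyy
  · -- the path through `z j`
    have hjF : Ed.zv j ∈ F := hqF (by simp)
    obtain ⟨q', hq', hvq'⟩ := hQc (.zw S ⟨j, hjF⟩) (hI (Or.inr ⟨S, rfl⟩)) rfl
    have hne : {e | e ∈ [Ed.rx j, .xz j, .zz j, .zv j, .vw S]} ≠ q' := by
      rintro rfl
      exact absurd hvq' (by simp)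
    have hd := Set.disjoint_left.1 (hQd hq hq' hne)
    obtain ⟨⟨l', hl', -, rfl⟩, -⟩ := hQ q' hq'
    have hzz : Ed.zz j ∈ l' := by
      rcases walk_to_w hl' with ⟨j', k', rfl⟩ | ⟨j', rfl⟩ | ⟨j', k', rfl⟩ | ⟨j', rfl⟩
      · exact absurd hvq' (by simp)
      · have h5 : Ed.zw S ⟨j, hjF⟩ = Ed.zw S j' := by simpa using hvq'
        injection h5 with h6 h7
        have h8 : j = j'.1 := congrArg Subtype.val h7
        simp [h8]
      · exact absurd hvq' (by simp)
      · exact absurd hvq' (by simp)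
    exact hd (show Ed.zz j ∈ _ by simp) hzz

theorem result : ∃ (V E : Type) (D : RootedDigraph V E), IsAcyclic D ∧ NoBackwardInfinite D ∧
    ∃ I, IsInG D Set.univ I ∧ ¬ ∃ F, IsFlame D F ∧ I ⊆ F :=
  ⟨Vx, Ed, D₀, D₀_acyclic, D₀_noBackward, I₀, I₀_mem, no_flame⟩

end Pool.Agent.Results.MP_6e5fe0_co.NoFlameAbove
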